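import Pool.Agent.K1H30.OP.Proj
import Pool.Agent.K1H54.LO.Defs3

/-! Many disjoint groups of frequencies on spheres. -/

open Set Filter Topology MeasureTheory

set_option autoImplicit false

namespace Pool.Agent.K1H52.LO
open Pool.Agent.Y5 Pool.Agent.Y5.D Pool.Agent.Y5.E Pool.Agent.K1H54.LO Pool.Agent.K1H54.L2

/-- greedy choice of groups -/
theorem greedy {α : Type} [DecidableEq α] (f : α → ℕ) (V : Finset ℕ) (K : ℕ) (hK : 0 < K) :
    ∀ (m : ℕ) (P : Finset α), (∀ x ∈ P, f x ∈ V) → V.card * K + m * K ≤ P.card →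
      ∃ G : Fin m → Finset α, (∀ i, G i ⊆ P) ∧ (∀ i, (G i).card = K) ∧
        (∀ i j, i ≠ j → Disjoint (G i) (G j)) ∧ ∀ i, ∃ v, ∀ x ∈ G i, f x = v := by
  intro m
  induction m with
  | zero => exact fun P _ _ => ⟨fun i => i.elim0, fun i => i.elim0, fun i => i.elim0,
      fun i => i.elim0, fun i => i.elim0⟩
  | succ m ih =>
    intro P hP hc
    have h1 : V.card * K < P.card := by
      have : 0 < (m + 1) * K := by positivity
      omega
    obtain ⟨v, -, hv⟩ := Finset.exists_lt_card_fiber_of_mul_lt_card_of_maps_to hP h1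
    obtain ⟨A, hA, hAc⟩ := Finset.exists_subset_card_eq hv.le
    have hAP : A ⊆ P := hA.trans (Finset.filter_subset _ _)
    obtain ⟨G, g1, g2, g3, g4⟩ := ih (P \ A) (fun x hx => hP x (Finset.mem_sdiff.1 hx).1) (by
      rw [Finset.card_sdiff_of_subset hAP, hAc]
      have : (m + 1) * K = m * K + K := by ring
      omega)
    have hd : ∀ j, Disjoint A (G j) := fun j =>
      (Finset.disjoint_sdiff).mono_right (g1 j)
    refine ⟨Fin.cons A G, ?_, ?_, ?_, ?_⟩
    · refine Fin.cases hAP (fun i => ?_)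
      rw [Fin.cons_succ]
      exact (g1 i).trans Finset.sdiff_subset
    · refine Fin.cases hAc (fun i => ?_)
      rw [Fin.cons_succ]
      exact g2 i
    · intro i j
      refine Fin.cases ?_ (fun i => ?_) i
      · refine Fin.cases (fun h => (h rfl).elim) (fun j _ => ?_) j
        rw [Fin.cons_zero, Fin.cons_succ]
        exact hd j
      · refine Fin.cases (fun _ => ?_) (fun j h => ?_) j
        · rw [Fin.cons_zero, Fin.cons_succ]
          exact (hd i).symm
        · rw [Fin.cons_succ, Fin.cons_succ]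
          exact g3 i j (fun e => h (by rw [e]))
    · refine Fin.cases ⟨v, fun x hx => ?_⟩ (fun i => ?_)
      · rw [Fin.cons_zero] at hx
        exact (Finset.mem_filter.1 (hA hx)).2
      · rw [Fin.cons_succ]
        exact g4 i

/-- the frequency with the parameters `a, b, c` -/
def mkk (K : ℕ) (x : ℕ × ℕ × ℕ) : Z3 :=
  ![1024 * (K : ℤ) + 2 * x.1 + 1, x.2.1, x.2.2]

theorem mkk_inj (K : ℕ) : Function.Injective (mkk K) := by
  intro x y h
  have h0 := congrFun h 0
  have h1 := congrFun h 1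
  have h2 := congrFun h 2
  simp only [mkk, Matrix.cons_val_zero, Matrix.cons_val_one, Matrix.cons_val] at h0 h1 h2
  refine Prod.ext ?_ (Prod.ext ?_ ?_) <;> omega

def par (K : ℕ) : Finset (ℕ × ℕ × ℕ) :=
  Finset.range (128 * K) ×ˢ (Finset.range (256 * K) ×ˢ Finset.range (256 * K))

/-- the square of the norm -/
def nsq (K : ℕ) (x : ℕ × ℕ × ℕ) : ℕ := (1024 * K + 2 * x.1 + 1) ^ 2 + x.2.1 ^ 2 + x.2.2 ^ 2

theorem norm_mkk (K : ℕ) (x : ℕ × ℕ × ℕ) : ‖vec (mkk K x)‖ ^ 2 = (nsq K x : ℝ) := by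
  rw [EuclideanSpace.norm_sq_eq, Fin.sum_univ_three]
  simp only [vec, mkk, Real.norm_eq_abs, sq_abs, nsq, Matrix.cons_val_zero, Matrix.cons_val_one,
    Matrix.cons_val]
  push_cast
  ring

theorem t_GRP : S_GRP := by
  intro K hK
  classical
  have h0 : ∀ x ∈ par K, nsq K x ∈ Finset.Ico (1024 ^ 2 * K ^ 2) (1024 ^ 2 * K ^ 2 * 2) := by
    rintro ⟨a, b, c⟩ hx
    simp only [par, Finset.mem_product, Finset.mem_range] at hx
    obtain ⟨ha, hb, hc⟩ := hx
    simp only [nsq, Finset.mem_Ico]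
    constructor
    · nlinarith
    · have e1 : (1024 * K + 2 * a + 1) ≤ 1280 * K := by omega
      have e1' : (1024 * K + 2 * a + 1) ^ 2 ≤ (1280 * K) ^ 2 := Nat.pow_le_pow_left e1 2
      have e2 : b ^ 2 ≤ (256 * K) ^ 2 := Nat.pow_le_pow_left hb.le 2
      have e3 : c ^ 2 ≤ (256 * K) ^ 2 := Nat.pow_le_pow_left hc.le 2
      have e4 : 0 < K ^ 2 := by positivity
      nlinarith
  have h1 : (Finset.Ico (1024 ^ 2 * K ^ 2) (1024 ^ 2 * K ^ 2 * 2)).card * K + (2 * K ^ 2) * K ≤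
      (par K).card := by
    rw [Nat.card_Ico]
    simp only [par, Finset.card_product, Finset.card_range]
    have e : 1024 ^ 2 * K ^ 2 * 2 - 1024 ^ 2 * K ^ 2 = 1024 ^ 2 * K ^ 2 := by omega
    rw [e]
    have : 0 < K ^ 3 := by positivity
    nlinarith
  obtain ⟨G, g1, g2, g3, g4⟩ := greedy (nsq K) _ K hK (2 * K ^ 2) (par K) h0 h1
  have hcard : Fintype.card (Bool × Fin (K ^ 2)) = 2 * K ^ 2 := by simp
  let e := Fintype.equivFinOfCardEq hcard
  refine ⟨fun i => (G (e i)).map ⟨mkk K, mkk_inj K⟩, fun i => ?_, fun i j hij => ?_, fun i => ?_,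
    fun i k hk => ?_⟩
  · rw [Finset.card_map, g2]
  · rw [Finset.disjoint_map]
    exact g3 _ _ (fun h => hij (e.injective h))
  · obtain ⟨v, hv⟩ := g4 (e i)
    refine ⟨√(v : ℝ), fun k hk => ?_⟩
    obtain ⟨x, hx, rfl⟩ := Finset.mem_map.1 hk
    simp only [Function.Embedding.coeFn_mk]
    rw [← hv x hx, ← norm_mkk, Real.sqrt_sq (norm_nonneg _)]
  · obtain ⟨x, hx, rfl⟩ := Finset.mem_map.1 hk
    simp only [Function.Embedding.coeFn_mk]
    have hx' := g1 _ hx
    have hn := h0 x hx'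
    have hN := norm_mkk K x
    rw [Finset.mem_Ico] at hn
    obtain ⟨n1, n2⟩ := hn
    have n1' : ((1024 : ℝ) * K) ^ 2 ≤ ‖vec (mkk K x)‖ ^ 2 := by
      rw [hN]
      have : ((1024 ^ 2 * K ^ 2 : ℕ) : ℝ) ≤ (nsq K x : ℝ) := by exact_mod_cast n1
      push_cast at this
      linarith
    have n2' : ‖vec (mkk K x)‖ ^ 2 ≤ ((2048 : ℝ) * K) ^ 2 := by
      rw [hN]
      have : (nsq K x : ℝ) ≤ ((1024 ^ 2 * K ^ 2 * 2 : ℕ) : ℝ) := by exact_mod_cast n2.le
      push_cast at this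
      nlinarith [sq_nonneg (K : ℝ)]
    have m1 : (1024 : ℝ) * K ≤ ‖vec (mkk K x)‖ :=
      le_of_sq_le_sq n1' (norm_nonneg _)
    have m2 : ‖vec (mkk K x)‖ ≤ (2048 : ℝ) * K := le_of_sq_le_sq n2' (by positivity)
    refine ⟨?_, ?_, ?_, m1, m2⟩
    · simp only [mkk, Matrix.cons_val_zero]
      positivity
    · simp only [mkk, Matrix.cons_val_zero]
      exact ⟨512 * K + x.1, by ring⟩
    · simp only [par, Finset.mem_product, Finset.mem_range] at hx'
      have hK' : (0 : ℝ) < K := by exact_mod_cast hK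
      have hp : 0 < ‖vec (mkk K x)‖ := lt_of_lt_of_le (by positivity) m1
      have c2 : ((mkk K x 2 : ℤ) : ℝ) = (x.2.2 : ℝ) := by
        simp [mkk]
      have hpe := Pool.Agent.K1H30.OP.norm_pe_sq (mkk K x) hp
      rw [c2] at hpe
      have hx2 : (x.2.2 : ℝ) ≤ 256 * K := by exact_mod_cast hx'.2.2.le
      have h4 : (x.2.2 : ℝ) ^ 2 / ‖vec (mkk K x)‖ ^ 2 ≤ 1 / 4 := by
        rw [div_le_iff₀ (by positivity)]
        have : (x.2.2 : ℝ) ^ 2 ≤ (256 * K : ℝ) ^ 2 := pow_le_pow_left₀ (by positivity) hx2 2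
        nlinarith
      nlinarith [norm_nonneg (pe (mkk K x))]

end Pool.Agent.K1H52.LO
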