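import Pool.Agent.Y691.ND.FLD
import Pool.Agent.K1H54.LO.Defs3

/-! The trilinear form is bounded by the maximum of the advecting field. -/

open Set Filter Topology MeasureTheory

set_option autoImplicit false

namespace Pool.Agent.K1H52.LO
open Pool.Agent.Y5 Pool.Agent.Y5.D Pool.Agent.Y5.E Pool.Agent.K1H54.LO Pool.Agent.K1H54.L2
open Pool.Agent.Y691.ND Pool.Agent.Y691.ND.F

theorem inner3 (V W : Fam) (rV : Rap V) (hW : OT W) (rW : Rap W) (q : Z3) (a : E3) :
    ∫ y in cube, Real.cos (ph q y) * inner ℝ (vec q) (ser Real.sin V y) *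
      inner ℝ a (ser Real.sin W y) =
    ∑' p, inner ℝ (V p) (vec q) * (1 / 2 * inner ℝ a (W (p - q) + W (p + q))) := by
  set G : E3 → E3 := fun y => (Real.cos (ph q y) * inner ℝ a (ser Real.sin W y)) • vec q with hG
  have hcW := ser_cont Real.continuous_sin Real.abs_sin_le_one (sum0 rW)
  have hbW := ser_bdd (V := W) Real.abs_sin_le_one (sum0 rW)
  have hGc : Continuous G :=
    ((Real.continuous_cos.comp (ph_cont q)).mul (continuous_const.inner hcW)).smul continuous_const
  have hGb : ∀ y, ‖G y‖ ≤ (1 * (‖a‖ * ∑' k, ‖W k‖)) * ‖vec q‖ := by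
    intro y
    rw [hG]
    simp only
    rw [norm_smul, norm_mul]
    refine mul_le_mul_of_nonneg_right ?_ (norm_nonneg _)
    refine mul_le_mul ?_ ?_ (norm_nonneg _) zero_le_one
    · rw [Real.norm_eq_abs]; exact Real.abs_cos_le_one _
    · refine (norm_inner_le_norm _ _).trans ?_
      exact mul_le_mul_of_nonneg_left (hbW y) (norm_nonneg _)
  have h1 : ∀ y, Real.cos (ph q y) * inner ℝ (vec q) (ser Real.sin V y) *
      inner ℝ a (ser Real.sin W y) = inner ℝ (ser Real.sin V y) (G y) := by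
    intro y
    rw [hG]
    simp only
    rw [inner_smul_right, real_inner_comm (ser Real.sin V y) (vec q)]
    ring
  rw [integral_congr_ae (Eventually.of_forall h1),
    int_pair Real.continuous_sin Real.abs_sin_le_one (sum0 rV) hGc hGb]
  refine tsum_congr (fun p => ?_)
  have h2 : ∀ y, Real.sin (ph p y) • G y =
      (inner ℝ a ((Real.cos (ph q y) * Real.sin (ph p y)) • ser Real.sin W y)) • vec q := by
    intro y
    rw [hG]
    simp only
    rw [inner_smul_right, smul_smul]
    congr 1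
    ring
  rw [integral_congr_ae (Eventually.of_forall h2), integral_smul_const, integral_inner,
    coef_cs (sum0 rW) hW.odd, inner_smul_right, inner_smul_right]
  · ring
  · refine int_of_cont ((((Real.continuous_cos.comp (ph_cont q)).mul
      (Real.continuous_sin.comp (ph_cont p)))).smul hcW) ⟨∑' k, ‖W k‖, fun y => ?_⟩
    rw [norm_smul, Real.norm_eq_abs, abs_mul]
    refine (mul_le_of_le_one_left (norm_nonneg _) ?_).trans (hbW y)
    exact mul_le_one₀ (Real.abs_cos_le_one _) (abs_nonneg _) (Real.abs_sin_le_one _)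

theorem outer3 (G V W : Fam) (rG : Rap G) (rV : Rap V) (hW : OT W) (rW : Rap W) :
    ∫ y in cube, inner ℝ (fderiv ℝ (fieldOf V) y (fieldOf G y)) (fieldOf W y) =
    ∑' q, 2 * Real.pi *
      ∑' p, inner ℝ (G p) (vec q) * (1 / 2 * inner ℝ (V q) (W (p - q) + W (p + q))) := by
  rw [fieldOf_eq, fieldOf_eq, fieldOf_eq]
  have hcV := ser_cont Real.continuous_sin Real.abs_sin_le_one (sum0 rG)
  have hbV := ser_bdd (V := G) Real.abs_sin_le_one (sum0 rG)
  have hcW := ser_cont Real.continuous_sin Real.abs_sin_le_one (sum0 rW)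
  have hbW := ser_bdd (V := W) Real.abs_sin_le_one (sum0 rW)
  have h1 : ∀ y, inner ℝ (fderiv ℝ (ser Real.sin V) y (ser Real.sin G y)) (ser Real.sin W y) =
      ∑' q, 2 * Real.pi * (Real.cos (ph q y) * inner ℝ (vec q) (ser Real.sin G y) *
        inner ℝ (V q) (ser Real.sin W y)) := by
    intro y
    rw [ser_fderiv (sum0 rV) (sum1 rV)]
    have hs : Summable (fun k => (Real.cos (ph k y) * (2 * Real.pi *
        inner ℝ (vec k) (ser Real.sin G y))) • V k) := by
      refine Summable.of_norm_bounded (((sum1 rV).mul_left (2 * Real.pi)).mul_left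
        (∑' k, ‖G k‖)) (fun k => ?_)
      rw [norm_smul, norm_mul, norm_mul, Real.norm_eq_abs, Real.norm_eq_abs,
        abs_of_pos Real.two_pi_pos]
      have h1 := Real.abs_cos_le_one (ph k y)
      have h2 : ‖inner ℝ (vec k) (ser Real.sin G y)‖ ≤ ‖vec k‖ * ∑' k, ‖G k‖ :=
        (norm_inner_le_norm _ _).trans (mul_le_mul_of_nonneg_left (hbV y) (norm_nonneg _))
      have hp := Real.two_pi_pos
      calc |Real.cos (ph k y)| * (2 * Real.pi * ‖inner ℝ (vec k) (ser Real.sin G y)‖) * ‖V k‖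
          ≤ 1 * (2 * Real.pi * (‖vec k‖ * ∑' k, ‖G k‖)) * ‖V k‖ := by gcongr
        _ = _ := by ring
    have h2 := (hs.hasSum.mapL (innerSL ℝ (ser Real.sin W y))).tsum_eq
    simp only [innerSL_apply_apply] at h2
    rw [real_inner_comm, ← h2]
    refine tsum_congr (fun k => ?_)
    rw [inner_smul_right, real_inner_comm (V k) (ser Real.sin W y)]
    ring
  rw [integral_congr_ae (Eventually.of_forall h1)]
  rw [int_tsum (u := fun q => 2 * Real.pi * ((∑' k, ‖G k‖) * (∑' k, ‖W k‖)) *
    (‖vec q‖ * ‖V q‖)) (fun q => ?_) ((sum1 rV).mul_left _) (fun q y => ?_)]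
  · refine tsum_congr (fun q => ?_)
    rw [integral_const_mul, inner3 G W rG hW rW]
  · exact continuous_const.mul (((Real.continuous_cos.comp (ph_cont q)).mul
      (continuous_const.inner hcV)).mul (continuous_const.inner hcW))
  · rw [norm_mul, Real.norm_eq_abs (2 * Real.pi), abs_of_pos Real.two_pi_pos, norm_mul, norm_mul,
      Real.norm_eq_abs (Real.cos _)]
    have h1 := Real.abs_cos_le_one (ph q y)
    have h2 : ‖inner ℝ (vec q) (ser Real.sin G y)‖ ≤ ‖vec q‖ * ∑' k, ‖G k‖ :=
      (norm_inner_le_norm _ _).trans (mul_le_mul_of_nonneg_left (hbV y) (norm_nonneg _))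
    have h3 : ‖inner ℝ (V q) (ser Real.sin W y)‖ ≤ ‖V q‖ * ∑' k, ‖W k‖ :=
      (norm_inner_le_norm _ _).trans (mul_le_mul_of_nonneg_left (hbW y) (norm_nonneg _))
    have hp := Real.two_pi_pos
    have hVn : 0 ≤ ∑' k, ‖G k‖ := tsum_nonneg (fun k => norm_nonneg _)
    calc 2 * Real.pi * (|Real.cos (ph q y)| * ‖inner ℝ (vec q) (ser Real.sin G y)‖ *
          ‖inner ℝ (V q) (ser Real.sin W y)‖)
        ≤ 2 * Real.pi * (1 * (‖vec q‖ * ∑' k, ‖G k‖) * (‖V q‖ * ∑' k, ‖W k‖)) := by gcongr
      _ = _ := by ring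

/-- absolute convergence of the double series -/
theorem two_sum3 (G V W : Fam) (rG : Rap G) (rV : Rap V) (rW : Rap W) (f : Z3 × Z3 → Z3) :
    Summable (fun x : Z3 × Z3 => inner ℝ (G x.2) (vec x.1) * inner ℝ (V x.1) (W (f x))) := by
  obtain ⟨B, hB0, hB⟩ := rap_bdd rW
  have h := ((sum1 rV).mul_of_nonneg (sum0 rG) (fun k => by positivity)
    (fun k => norm_nonneg _)).mul_left B
  refine Summable.of_norm_bounded h (fun x => ?_)
  rw [norm_mul]
  calc ‖inner ℝ (G x.2) (vec x.1)‖ * ‖inner ℝ (V x.1) (W (f x))‖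
      ≤ (‖G x.2‖ * ‖vec x.1‖) * (‖V x.1‖ * B) := by
        refine mul_le_mul (norm_inner_le_norm _ _) ?_ (norm_nonneg _) (by positivity)
        exact (norm_inner_le_norm _ _).trans (mul_le_mul_of_nonneg_left (hB _) (norm_nonneg _))
    _ = B * (‖vec x.1‖ * ‖V x.1‖ * ‖G x.2‖) := by ring

theorem cnv3 (G V W : Fam) (hG : OT G) (rG : Rap G) (hV : OT V) (rV : Rap V) (hW : OT W)
    (rW : Rap W) :
    ∫ y in cube, inner ℝ (fderiv ℝ (fieldOf V) y (fieldOf G y)) (fieldOf W y) =
      -bil G V W := by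
  rw [outer3 G V W rG rV hW rW]
  set f : Z3 × Z3 → ℝ := fun x => inner ℝ (G x.2) (vec x.1) * inner ℝ (V x.1) (W (x.2 - x.1)) with hf
  set g : Z3 × Z3 → ℝ := fun x => inner ℝ (G x.2) (vec x.1) * inner ℝ (V x.1) (W (x.2 + x.1)) with hg
  have hfs : Summable f := two_sum3 G V W rG rV rW (fun x => x.2 - x.1)
  have hgs : Summable g := two_sum3 G V W rG rV rW (fun x => x.2 + x.1)
  have h1 : ∑' q, 2 * Real.pi *
      ∑' p, inner ℝ (G p) (vec q) * (1 / 2 * inner ℝ (V q) (W (p - q) + W (p + q))) =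
      Real.pi * ∑' x, (f x + g x) := by
    rw [(hfs.add hgs).tsum_prod, ← tsum_mul_left]
    refine tsum_congr (fun q => ?_)
    rw [← tsum_mul_left, ← tsum_mul_left]
    refine tsum_congr (fun p => ?_)
    rw [hf, hg]
    simp only
    rw [inner_add_right]
    ring
  rw [h1, hfs.tsum_add hgs]
  have h2 : ∑' x, f x = ∑' x, g x := by
    rw [← ((Equiv.neg Z3).prodCongr (Equiv.refl Z3)).tsum_eq f]
    refine tsum_congr (fun x => ?_)
    rw [hf, hg]
    simp only [Equiv.prodCongr_apply, Equiv.neg_apply, Equiv.refl_apply, Prod.map]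
    rw [hV.odd, vec_neg, inner_neg_right, inner_neg_left, sub_neg_eq_add]
    ring
  rw [h2]
  unfold bil
  have h3 : ∑' q : Z3 × Z3, inner ℝ (G q.1) (vec q.2) * inner ℝ (V (q.2 - q.1)) (W q.2) =
      ∑' x, g x := by
    let e : Z3 × Z3 ≃ Z3 × Z3 :=
      { toFun := fun x => (x.2, x.2 + x.1)
        invFun := fun x => (x.2 - x.1, x.1)
        left_inv := fun x => by simp
        right_inv := fun x => by simp }
    rw [← e.tsum_eq (fun q : Z3 × Z3 => inner ℝ (G q.1) (vec q.2) * inner ℝ (V (q.2 - q.1)) (W q.2))]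
    refine tsum_congr (fun x => ?_)
    rw [hg]
    change inner ℝ (G x.2) (vec (x.2 + x.1)) * inner ℝ (V (x.2 + x.1 - x.2)) (W (x.2 + x.1)) = _
    rw [vec_add, inner_add_right, real_inner_comm (vec x.2) (G x.2), hG.tan, zero_add,
      add_sub_cancel_left]
  rw [h3]
  ring

/-- pointwise bound of the directional derivative -/
theorem fd_bd (F : E3 →L[ℝ] E3) (u : E3) :
    ‖F u‖ ≤ ‖u‖ * √(∑ i : Fin 3, ‖F (EuclideanSpace.single i 1)‖ ^ 2) := by
  have hu : u = ∑ i : Fin 3, u i • (EuclideanSpace.single i (1 : ℝ) : E3) := by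
    ext j
    simp [Finset.sum_apply, Pi.single_apply]
  have h1 : F u = ∑ i : Fin 3, u i • F (EuclideanSpace.single i (1 : ℝ)) := by
    conv_lhs => rw [hu]
    rw [map_sum]
    exact Finset.sum_congr rfl fun i _ => map_smul _ _ _
  rw [h1]
  refine (norm_sum_le _ _).trans ?_
  simp_rw [norm_smul]
  refine (Real.sum_mul_le_sqrt_mul_sqrt _ _ _).trans ?_
  rw [EuclideanSpace.norm_eq]

/-- density of the Dirichlet integral -/
noncomputable def dd (W : Fam) (y : E3) : ℝ :=
  ∑ i : Fin 3, ‖fderiv ℝ (fieldOf W) y (EuclideanSpace.single i 1)‖ ^ 2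

theorem dd_int (W : Fam) (rW : Rap W) :
    Integrable (dd W) ((volume : Measure E3).restrict cube) := by
  have h1 : dd W = fun y => ∑ i : Fin 3, ‖ser Real.cos (dfam i W) y‖ ^ 2 := by
    funext y
    unfold dd
    refine Finset.sum_congr rfl fun i _ => ?_
    rw [fieldOf_eq, fld_d i rW]
  rw [h1]
  refine integrable_finsetSum _ fun i _ => ?_
  have hc := ser_cont Real.continuous_cos Real.abs_cos_le_one (dfam_sum i rW)
  have hb := ser_bdd Real.abs_cos_le_one (dfam_sum i rW)
  refine int_of_cont (hc.norm.pow 2) ⟨(∑' k, ‖dfam i W k‖) ^ 2, fun y => ?_⟩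
  rw [Real.norm_eq_abs, abs_of_nonneg (by positivity)]
  exact pow_le_pow_left₀ (norm_nonneg _) (hb y) 2

theorem sq_int (Z : Fam) (rZ : Rap Z) :
    Integrable (fun y => ‖fieldOf Z y‖ ^ 2) ((volume : Measure E3).restrict cube) := by
  have hc := ser_cont Real.continuous_sin Real.abs_sin_le_one (sum0 rZ)
  have hb := ser_bdd (V := Z) Real.abs_sin_le_one (sum0 rZ)
  rw [fieldOf_eq]
  refine int_of_cont (hc.norm.pow 2) ⟨(∑' k, ‖Z k‖) ^ 2, fun y => ?_⟩
  rw [Real.norm_eq_abs, abs_of_nonneg (by positivity)]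
  exact pow_le_pow_left₀ (norm_nonneg _) (hb y) 2

theorem opt_t {x A B : ℝ} (hA : 0 ≤ A) (hB : 0 ≤ B)
    (h : ∀ t : ℝ, 0 < t → x ≤ (t * A ^ 2 + B ^ 2 / t) / 2) : x ≤ A * B := by
  rcases hA.eq_or_lt with hA0 | hA0
  · subst hA0
    rw [zero_mul]
    by_contra hx
    push Not at hx
    have h1 := h (B ^ 2 / x + 1) (by positivity)
    have h2 : B ^ 2 / (B ^ 2 / x + 1) < x := by
      rw [div_lt_iff₀ (by positivity)]
      have : x * (B ^ 2 / x + 1) = B ^ 2 + x := by field_simp
      rw [this]; linarith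
    nlinarith
  rcases hB.eq_or_lt with hB0 | hB0
  · subst hB0
    rw [mul_zero]
    by_contra hx
    push Not at hx
    have h1 := h (x / A ^ 2) (by positivity)
    have h2 : x / A ^ 2 * A ^ 2 = x := by field_simp
    rw [h2] at h1
    simp at h1
    linarith
  · have h1 := h (B / A) (by positivity)
    have h2 : (B / A * A ^ 2 + B ^ 2 / (B / A)) / 2 = A * B := by field_simp; ring
    rwa [h2] at h1

theorem t_TRI : S_TRI := by
  intro G W Z M hG rG hW rW hZ rZ hM
  have hM0 : 0 ≤ M := (norm_nonneg _).trans (hM 0)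
  have hp := Real.two_pi_pos
  have e1 : (2 * Real.pi * h1 W) ^ 2 = ∫ y in cube, dd W y := by
    have := fld_dir W hW rW
    unfold dir at this
    unfold dd
    rw [this, mul_pow]
    unfold h1
    rw [Real.sq_sqrt (tsum_nonneg fun k => by positivity)]
  have e2 : l2 Z ^ 2 = ∫ y in cube, ‖fieldOf Z y‖ ^ 2 := by
    have := fld_ip Z Z hZ rZ hZ rZ
    unfold ip pair at this
    simp_rw [real_inner_self_eq_norm_sq] at this
    rw [this]
    unfold l2
    rw [Real.sq_sqrt (tsum_nonneg fun k => by positivity)]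
  have key : ∀ t : ℝ, 0 < t → |bil G W Z| ≤
      (t * (2 * Real.pi * M * h1 W) ^ 2 + (l2 Z) ^ 2 / t) / 2 := by
    intro t ht
    rw [← abs_neg, ← cnv3 G W Z hG rG hW rW hZ rZ, ← Real.norm_eq_abs]
    have hi : Integrable (fun y => (t * (M ^ 2 * dd W y) + ‖fieldOf Z y‖ ^ 2 / t) / 2)
        ((volume : Measure E3).restrict cube) :=
      ((((dd_int W rW).const_mul (M ^ 2)).const_mul t).add ((sq_int Z rZ).div_const t)).div_const 2
    refine (norm_integral_le_of_norm_le hi (Eventually.of_forall fun y => ?_)).trans (le_of_eq ?_)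
    · refine (norm_inner_le_norm _ _).trans ?_
      have a1 := fd_bd (fderiv ℝ (fieldOf W) y) (fieldOf G y)
      have a2 : ‖fderiv ℝ (fieldOf W) y (fieldOf G y)‖ ≤ M * √(dd W y) :=
        a1.trans (mul_le_mul_of_nonneg_right (hM y) (Real.sqrt_nonneg _))
      have a3 : √(dd W y) ^ 2 = dd W y := Real.sq_sqrt (Finset.sum_nonneg fun i _ => by positivity)
      refine (mul_le_mul_of_nonneg_right a2 (norm_nonneg _)).trans ?_
      set a := M * √(dd W y) with ha
      set b := ‖fieldOf Z y‖ with hb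
      have a4 : M ^ 2 * dd W y = a ^ 2 := by rw [ha, mul_pow, a3]
      rw [a4]
      have a5 : (t * a ^ 2 + b ^ 2 / t) / 2 - a * b = (t * a - b) ^ 2 / (2 * t) := by
        field_simp
        ring
      have a6 : 0 ≤ (t * a - b) ^ 2 / (2 * t) := by positivity
      linarith
    · rw [integral_div, integral_add (((dd_int W rW).const_mul (M ^ 2)).const_mul t)
        ((sq_int Z rZ).div_const t), integral_const_mul, integral_const_mul, integral_div,
        ← e1, ← e2]
      ring
  have := opt_t (by unfold h1; positivity) (by unfold l2; positivity) key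
  calc |bil G W Z| ≤ 2 * Real.pi * M * h1 W * l2 Z := this
    _ = _ := by ring

end Pool.Agent.K1H52.LO
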